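import Mathlib
import Pool.Agent.Helper303.DbMain

open MeasureTheory Set
open Pool.Agent.Helper303.Db

namespace Pool.Agent.Results.MP_ae2532_an.UniformFails

/-- In every dimension `n ≥ 2` there is a bounded domain `Ω ⊂ ℂⁿ`, biholomorphic to the unit ball,
on which `∂̄` does not satisfy uniform estimates. -/
theorem result : ∀ n : ℕ, 2 ≤ n → ∃ Ω : Set (Fin n → ℂ),
    IsOpen Ω ∧ IsConnected Ω ∧ Bornology.IsBounded Ω ∧ Biholomorphic (unitBall n) Ω ∧
      ¬ UniformEstimates Ω := by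
  intro n hn
  obtain ⟨m, rfl⟩ : ∃ m, n = m + 2 := ⟨n - 2, by omega⟩
  obtain ⟨b, hb, ⟨β, hβ⟩, hU⟩ := main m
  exact ⟨Om m b, isOpen_Om hb, isConnected_Om hb, isBounded_Om hβ, biholo hb, hU⟩

end Pool.Agent.Results.MP_ae2532_an.UniformFails
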